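import Mathlib
import Pool.Agent.H.MP_20595b_gt.A

open Set Filter Topology

namespace Pool.Agent.Results.MP_20595b_gt.NotProductive

/-- continuous real functions with the topology of pointwise convergence -/
abbrev Cp (X : Type) [TopologicalSpace X] : Type := {f : X → ℝ // Continuous f}

/-- g-space -/
def IsG (Z : Type) [TopologicalSpace Z] : Prop :=
  ∀ A : Set Z, (∀ B ⊆ A, B.Infinite → ∃ z : Z, AccPt z (𝓟 B)) → IsCompact (closure A)

theorem result : ∃ (X Y : Type) (_ : TopologicalSpace X) (_ : TopologicalSpace Y),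
    T35Space X ∧ T35Space Y ∧ (∀ S : Set (Cp X), IsG S) ∧ (∀ S : Set (Cp Y), IsG S) ∧
    ¬ IsG (Cp (X × Y)) := by
  obtain ⟨X, Y, h1, h2, h3⟩ := H.MP_20595b_gt.main
  exact ⟨X, Y, inferInstance, inferInstance, inferInstance, inferInstance, h1, h2, h3⟩

end Pool.Agent.Results.MP_20595b_gt.NotProductive
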